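import Mathlib
import Pool.Agent.KS6_19.TP.Cases
import Pool.Agent.KS6_19.TP.T149
import Pool.Agent.KS6_19.TP.One
import Pool.Agent.KS6_19.TP.Neg

namespace Pool.Agent.Results.MP_f836a2_nt.AllModuli

open PowerSeries PowerSeries.WithPiTopology

/-- `(q^a; q^m)_∞ = ∏_{i ≥ 0} (1 - q^(a + m i))` -/
noncomputable def poch (a m : ℕ) : ℤ⟦X⟧ := ∏' i : ℕ, (1 - X ^ (a + m * i))

/-- The truncated pentagonal sum `P_k(q) = ∑_{i = 1-k}^{k} (-1)^i q^{i(3i-1)/2}`. -/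
noncomputable def Pk (k : ℕ) : ℤ⟦X⟧ :=
  ∑ i ∈ Finset.Icc (1 - (k : ℤ)) k, (-1) ^ i.natAbs * X ^ (i * (3 * i - 1) / 2).toNat

/-- `F_{r,s,k}(q) = (-1)^{k-1} (P_k(q) / (q;q)_∞ - 1) (q^s, q^{r-s}, q^r; q^r)_∞`; the question
is about `r = 7`, `s = 1`. -/
noncomputable def F (r s k : ℕ) : ℤ⟦X⟧ :=
  (-1) ^ (k - 1) * (Pk k * invOfUnit (poch 1 1) 1 - 1) * (poch s r * poch (r - s) r * poch r r)

/-- the coefficient of `q^n` in `F_{r,s,k}` -/
noncomputable def c (r s k n : ℕ) : ℤ := coeff n (F r s k)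

/-- `N_k = k(3k+1)/2` -/
def Nk (k : ℕ) : ℕ := k * (3 * k + 1) / 2

/-- the sporadic zeros, which occur only for `k = 1` -/
def Sporadic (r s n : ℕ) : Prop :=
  (s = 1 ∧ (n = 5 ∨ n = 7 ∨ (n = 9 ∧ r ≤ 8) ∨ ((n = 11 ∨ n = 13) ∧ r = 8))) ∨
    (r = 5 ∧ s = 2 ∧ (n = 5 ∨ n = 7 ∨ n = 9 ∨ n = 11))

/-- **All theta products.** Let `1 ≤ s < r/2`. All coefficients of all the `F_{r,s,k}`, `k ≥ 1`,
are nonnegative if and only if not (`s = 1` and `r ≤ 6`); for the four remaining pairs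
`(3,1), (4,1), (5,1), (6,1)` there is a negative coefficient already for `k = 1`, `n ≤ 7`. In the
nonnegative cases the coefficient is zero exactly when `n < N_k`, or `s = 1` and `n = N_k + 1`,
or `k = 1` and `n` is one of the sporadic values. -/
theorem result (r s : ℕ) (hs : 1 ≤ s) (hr : 2 * s < r) :
    ((∀ k n : ℕ, 1 ≤ k → 0 ≤ c r s k n) ↔ ¬ (s = 1 ∧ r ≤ 6)) ∧
    (¬ (s = 1 ∧ r ≤ 6) → ∀ k n : ℕ, 1 ≤ k →
      (c r s k n = 0 ↔ n < Nk k ∨ (s = 1 ∧ n = Nk k + 1) ∨ (k = 1 ∧ Sporadic r s n))) ∧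
    ((s = 1 ∧ r ≤ 6) → ∃ n ≤ 7, c r s 1 n < 0) := by
  have hc : ∀ k n, c r s k n = Pool.Agent.KS6_19.TP.c r s k n := fun _ _ => rfl
  have main : ¬ (s = 1 ∧ r ≤ 6) → ∀ k n : ℕ, 1 ≤ k → 0 ≤ c r s k n ∧
      (c r s k n = 0 ↔ n < Nk k ∨ (s = 1 ∧ n = Nk k + 1) ∨ (k = 1 ∧ Sporadic r s n)) := by
    intro h k n hk
    have hNk : Nk k = Pool.Agent.KS6_19.TP.Nk k := rfl
    rw [hc, hNk]
    unfold Sporadic
    by_cases h1 : s = 1
    · subst h1
      have := Pool.Agent.KS6_19.TP.case1 (r := r) (by omega) k n hk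
      refine ⟨this.1, this.2.trans ?_⟩
      omega
    by_cases h2 : s = 2
    · subst h2
      rcases Nat.lt_or_ge 5 r with h5 | h5
      · have := Pool.Agent.KS6_19.TP.case2 h5 k n hk
        refine ⟨this.1, this.2.trans ?_⟩
        omega
      · have h5' : r = 5 := by omega
        subst h5'
        have := Pool.Agent.KS6_19.TP.case52 k n hk
        refine ⟨this.1, this.2.trans ?_⟩
        omega
    by_cases h3 : s = 3
    · subst h3
      have := Pool.Agent.KS6_19.TP.case3 (by omega) k n hk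
      refine ⟨this.1, this.2.trans ?_⟩
      omega
    · have := Pool.Agent.KS6_19.TP.case4 (by omega) hr k n hk
      refine ⟨this.1, this.2.trans ?_⟩
      omega
  have hneg : (s = 1 ∧ r ≤ 6) → ∃ n ≤ 7, c r s 1 n < 0 := by
    rintro ⟨rfl, h6⟩
    have : r = 3 ∨ r = 4 ∨ r = 5 ∨ r = 6 := by omega
    rcases this with rfl | rfl | rfl | rfl
    · exact ⟨5, by norm_num, by rw [hc, Pool.Agent.KS6_19.TP.neg3]; norm_num⟩
    · exact ⟨5, by norm_num, by rw [hc, Pool.Agent.KS6_19.TP.neg4]; norm_num⟩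
    · exact ⟨7, by norm_num, by rw [hc, Pool.Agent.KS6_19.TP.neg5]; norm_num⟩
    · exact ⟨7, by norm_num, by rw [hc, Pool.Agent.KS6_19.TP.neg6]; norm_num⟩
  refine ⟨⟨fun h h' => ?_, fun h k n hk => (main h k n hk).1⟩,
    fun h k n hk => (main h k n hk).2, hneg⟩
  obtain ⟨n, _, hn⟩ := hneg h'
  have := h 1 n le_rfl
  omega

end Pool.Agent.Results.MP_f836a2_nt.AllModuli
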